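import Mathlib

/-!
# MP_fa5fea_an : a finite Clifford spectrum with more than `n` points

Three real symmetric `3 × 3` matrices whose Clifford spectrum consists of five points.
-/

namespace Pool.Agent.Results.MP_fa5fea_an.FivePoints

open Matrix

noncomputable section

/-- `γ` is an irreducible representation of the Clifford relations by Hermitian matrices. -/
structure IsCliffordRep {d k : ℕ} (γ : Fin d → Matrix (Fin k) (Fin k) ℂ) : Prop where
  size_pos : 0 < k
  hermitian : ∀ j, (γ j).IsHermitian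
  relations : ∀ j l, γ j * γ l + γ l * γ j = if j = l then 2 • 1 else 0
  irreducible : ∀ W : Submodule ℂ (Fin k → ℂ), (∀ j, ∀ w ∈ W, γ j *ᵥ w ∈ W) → W = ⊥ ∨ W = ⊤

/-- The spectral localizer `∑ (A_j - λ_j) ⊗ γ_j`. -/
def localizer {n d k : ℕ} (A : Fin d → Matrix (Fin n) (Fin n) ℂ)
    (γ : Fin d → Matrix (Fin k) (Fin k) ℂ) (lam : Fin d → ℝ) :
    Matrix (Fin n × Fin k) (Fin n × Fin k) ℂ :=
  ∑ j, Matrix.kroneckerMap (· * ·) (A j - (lam j : ℂ) • (1 : Matrix (Fin n) (Fin n) ℂ)) (γ j)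

/-- The Clifford spectrum: the localizer is not invertible. -/
def cliffordSpectrum {n d k : ℕ} (A : Fin d → Matrix (Fin n) (Fin n) ℂ)
    (γ : Fin d → Matrix (Fin k) (Fin k) ℂ) : Set (Fin d → ℝ) :=
  {lam | ¬ IsUnit (localizer A γ lam)}

/-- the three matrices -/
def AA : Fin 3 → Matrix (Fin 3) (Fin 3) ℂ :=
  ![!![0, 0, 0; 0, 0, 1; 0, 1, 0], !![0, 0, 1; 0, 0, 0; 1, 0, 0], !![0, 1, 0; 1, 0, 0; 0, 0, 0]]

/-- the Pauli matrices -/
def pauli : Fin 3 → Matrix (Fin 2) (Fin 2) ℂ :=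
  ![!![0, 1; 1, 0], !![0, -Complex.I; Complex.I, 0], !![1, 0; 0, -1]]

lemma AA_herm (j : Fin 3) : (AA j).IsHermitian := by
  ext a b
  fin_cases j <;> fin_cases a <;> fin_cases b <;> simp [AA]

lemma pauli_rep : IsCliffordRep pauli where
  size_pos := by norm_num
  hermitian := by
    intro j
    ext a b
    fin_cases j <;> fin_cases a <;> fin_cases b <;> simp [pauli]
  relations := by
    intro j l
    ext a b
    fin_cases j <;> fin_cases l <;> fin_cases a <;> fin_cases b <;>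
      simp [pauli] <;> norm_num
  irreducible := by
    intro W hW
    by_cases hb : W = ⊥
    · exact Or.inl hb
    right
    obtain ⟨w, hw, hw0⟩ := (Submodule.ne_bot_iff W).1 hb
    have h1 := hW 0
    have h3 := hW 2
    have e1 : ∀ v : Fin 2 → ℂ, pauli 0 *ᵥ v = ![v 1, v 0] := by
      intro v; ext i; fin_cases i <;> simp [pauli, Matrix.mulVec, dotProduct, Fin.sum_univ_two]
    have e3 : ∀ v : Fin 2 → ℂ, pauli 2 *ᵥ v = ![v 0, -v 1] := by
      intro v; ext i; fin_cases i <;> simp [pauli, Matrix.mulVec, dotProduct, Fin.sum_univ_two]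
    -- both unit vectors lie in `W`
    have key : (![1, 0] : Fin 2 → ℂ) ∈ W := by
      have h4 := h3 w hw
      rw [e3] at h4
      by_cases ha : w 0 = 0
      · have hb' : w 1 ≠ 0 := by
          intro hb'
          apply hw0
          ext i
          fin_cases i
          · exact ha
          · exact hb'
        have h5 := W.smul_mem (w 1)⁻¹ (h1 w hw)
        rw [e1] at h5
        convert h5 using 1
        ext i
        fin_cases i
        · simp [hb']
        · simp [ha]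
      · have h5 := W.smul_mem (2 * w 0)⁻¹ (W.add_mem hw h4)
        convert h5 using 1
        ext i
        fin_cases i
        · show (1 : ℂ) = (2 * w 0)⁻¹ * (w 0 + w 0)
          field_simp
          ring
        · show (0 : ℂ) = (2 * w 0)⁻¹ * (w 1 + -w 1)
          ring
    have key2 : (![0, 1] : Fin 2 → ℂ) ∈ W := by
      have h4 := h1 _ key
      rw [e1] at h4
      simpa using h4
    rw [Submodule.eq_top_iff']
    intro v
    have h6 := W.add_mem (W.smul_mem (v 0) key) (W.smul_mem (v 1) key2)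
    convert h6 using 1
    ext i
    fin_cases i <;> simp

lemma sub_eq (x y z : ℝ) : (localizer AA pauli ![x, y, z]).submatrix
      (finProdFinEquiv (m := 3) (n := 2)).symm (finProdFinEquiv (m := 3) (n := 2)).symm =
    !![-(z:ℂ), -x + Complex.I * y, 1, 0, 0, -Complex.I;
       -x - Complex.I * y, z, 0, -1, Complex.I, 0;
       1, 0, -z, -x + Complex.I * y, 0, 1;
       0, -1, -x - Complex.I * y, z, 1, 0;
       0, -Complex.I, 0, 1, -z, -x + Complex.I * y;
       Complex.I, 0, 1, 0, -x - Complex.I * y, z] := by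
  ext i j
  fin_cases i <;> fin_cases j <;>
    simp [localizer, AA, pauli, finProdFinEquiv, Fin.sum_univ_three, Fin.divNat, Fin.modNat] <;> ring

lemma det6 (x y z I : ℂ) (hI : I ^ 2 = -1) : Matrix.det
    !![-(z:ℂ), -x + I * y, 1, 0, 0, -I;
       -x - I * y, z, 0, -1, I, 0;
       1, 0, -z, -x + I * y, 0, 1;
       0, -1, -x - I * y, z, 1, 0;
       0, -I, 0, 1, -z, -x + I * y;
       I, 0, 1, 0, -x - I * y, z] =
    - ((x ^ 2 + y ^ 2 + z ^ 2) * (x ^ 2 + y ^ 2 + z ^ 2 + 1) ^ 2 - 16 * x * y * z) := by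
  simp [Matrix.det_succ_row_zero, Fin.sum_univ_succ, Fin.succAbove]
  linear_combination ((1)*z^2 + (-1)*z^2*I^2 + (2)*z^4 + (1)*y^2 + (3)*y^2*I^2 + (1)*y^2*I^4
    + (4)*y^2*z^2 + (3)*y^2*z^4 + (2)*y^4 + (-2)*y^4*I^2 + (-2)*y^4*I^4 + (3)*y^4*z^2
    + (-3)*y^4*z^2*I^2 + (1)*y^6 + (-1)*y^6*I^2 + (1)*y^6*I^4 + (-16)*x^1*y^1*z^1 + (1)*x^2
    + (-1)*x^2*I^2 + (4)*x^2*z^2 + (4)*x^2*y^2 + (6)*x^2*y^2*z^2 + (3)*x^2*y^4
    + (-3)*x^2*y^4*I^2 + (2)*x^4 + (3)*x^4*y^2) * hI

lemma det_localizer (x y z : ℝ) : (localizer AA pauli ![x, y, z]).det =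
    ((-((x ^ 2 + y ^ 2 + z ^ 2) * (x ^ 2 + y ^ 2 + z ^ 2 + 1) ^ 2 - 16 * x * y * z) : ℝ) : ℂ) := by
  rw [← Matrix.det_submatrix_equiv_self (finProdFinEquiv (m := 3) (n := 2)).symm, sub_eq,
    det6 _ _ _ _ Complex.I_sq]
  push_cast
  ring

lemma mem_iff (x y z : ℝ) : ![x, y, z] ∈ cliffordSpectrum AA pauli ↔
    (x ^ 2 + y ^ 2 + z ^ 2) * (x ^ 2 + y ^ 2 + z ^ 2 + 1) ^ 2 = 16 * x * y * z := by
  unfold cliffordSpectrum
  rw [Set.mem_ofPred_eq, Matrix.isUnit_iff_isUnit_det, det_localizer, isUnit_iff_ne_zero, not_not,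
    Complex.ofReal_eq_zero, neg_eq_zero, sub_eq_zero]

lemma real_eq {x y z : ℝ}
    (h : (x ^ 2 + y ^ 2 + z ^ 2) * (x ^ 2 + y ^ 2 + z ^ 2 + 1) ^ 2 = 16 * x * y * z) :
    (x = 0 ∧ y = 0 ∧ z = 0) ∨ (x ^ 2 = 1 / 9 ∧ y ^ 2 = 1 / 9 ∧ z ^ 2 = 1 / 9 ∧
      x * y * z = 1 / 27) := by
  set s := x ^ 2 + y ^ 2 + z ^ 2 with hs
  have hs0 : 0 ≤ s := by positivity
  rcases hs0.eq_or_lt with h0 | h0
  · left
    have hx : x ^ 2 = 0 := by nlinarith [sq_nonneg x, sq_nonneg y, sq_nonneg z]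
    have hy : y ^ 2 = 0 := by nlinarith [sq_nonneg x, sq_nonneg y, sq_nonneg z]
    have hz : z ^ 2 = 0 := by nlinarith [sq_nonneg x, sq_nonneg y, sq_nonneg z]
    exact ⟨pow_eq_zero_iff (two_ne_zero) |>.1 hx, pow_eq_zero_iff (two_ne_zero) |>.1 hy,
      pow_eq_zero_iff (two_ne_zero) |>.1 hz⟩
  · right
    -- arithmetic and geometric mean
    have amgm : 27 * (x ^ 2 * y ^ 2 * z ^ 2) ≤ s ^ 3 := by
      rw [hs]
      nlinarith [mul_nonneg (sq_nonneg x) (sq_nonneg (y ^ 2 - z ^ 2)),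
        mul_nonneg (sq_nonneg y) (sq_nonneg (x ^ 2 - z ^ 2)),
        mul_nonneg (sq_nonneg z) (sq_nonneg (x ^ 2 - y ^ 2)),
        mul_nonneg (add_nonneg (add_nonneg (sq_nonneg x) (sq_nonneg y)) (sq_nonneg z))
          (add_nonneg (add_nonneg (sq_nonneg (x ^ 2 - y ^ 2)) (sq_nonneg (y ^ 2 - z ^ 2)))
            (sq_nonneg (x ^ 2 - z ^ 2)))]
    have h2 : s ^ 2 * (s + 1) ^ 4 = 256 * (x ^ 2 * y ^ 2 * z ^ 2) := by
      have h' : (s * (s + 1) ^ 2) ^ 2 = (16 * x * y * z) ^ 2 := by rw [h]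
      calc s ^ 2 * (s + 1) ^ 4 = (s * (s + 1) ^ 2) ^ 2 := by ring
        _ = (16 * x * y * z) ^ 2 := h'
        _ = 256 * (x ^ 2 * y ^ 2 * z ^ 2) := by ring
    have h3 : s ^ 2 * (27 * (s + 1) ^ 4) ≤ s ^ 2 * (256 * s) := by
      calc s ^ 2 * (27 * (s + 1) ^ 4) = 27 * (s ^ 2 * (s + 1) ^ 4) := by ring
        _ = 256 * (27 * (x ^ 2 * y ^ 2 * z ^ 2)) := by rw [h2]; ring
        _ ≤ 256 * s ^ 3 := by linarith
        _ = s ^ 2 * (256 * s) := by ring
    have h4 : 27 * (s + 1) ^ 4 ≤ 256 * s := le_of_mul_le_mul_left h3 (by positivity)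
    have h5 : (3 * s - 1) ^ 2 * (3 * s ^ 2 + 14 * s + 27) ≤ 0 := by
      have : (3 * s - 1) ^ 2 * (3 * s ^ 2 + 14 * s + 27) = 27 * (s + 1) ^ 4 - 256 * s := by ring
      linarith
    have h6 : (3 * s - 1) ^ 2 ≤ 0 := by
      by_contra hcon
      push Not at hcon
      have : 0 < (3 * s - 1) ^ 2 * (3 * s ^ 2 + 14 * s + 27) := by positivity
      linarith
    have h7 : 3 * s - 1 = 0 := by
      have := le_antisymm h6 (sq_nonneg _)
      exact pow_eq_zero_iff (two_ne_zero) |>.1 this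
    have hs1 : s = 1 / 3 := by linarith
    have h8 : x * y * z = 1 / 27 := by
      rw [hs1] at h
      linarith
    have h9 : x ^ 2 * y ^ 2 * z ^ 2 = 1 / 729 := by
      have : x ^ 2 * y ^ 2 * z ^ 2 = (x * y * z) ^ 2 := by ring
      rw [this, h8]; norm_num
    have hsum : x ^ 2 + y ^ 2 + z ^ 2 = 1 / 3 := by rw [← hs]; exact hs1
    -- equality in the inequality of means
    have key : ∀ a b c : ℝ, 0 ≤ a → 0 ≤ b → 0 ≤ c → a + b + c = 1 / 3 → a * b * c = 1 / 729 →
        a = 1 / 9 := by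
      intro a b c ha hb hc h1 h2
      have h3 : b * c ≤ ((1 / 3 - a) / 2) ^ 2 := by
        have : 1 / 3 - a = b + c := by linarith
        rw [this]
        nlinarith [sq_nonneg (b - c)]
      have h4 : 1 / 729 ≤ a * ((1 / 3 - a) / 2) ^ 2 := by
        calc (1 : ℝ) / 729 = a * (b * c) := by rw [← h2]; ring
          _ ≤ a * ((1 / 3 - a) / 2) ^ 2 := mul_le_mul_of_nonneg_left h3 ha
      have h5 : (a - 1 / 9) ^ 2 * (4 / 9 - a) ≤ 0 := by
        have : a * ((1 / 3 - a) / 2) ^ 2 - 1 / 729 = -(1 / 4) * ((a - 1 / 9) ^ 2 * (4 / 9 - a)) := by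
          ring
        linarith
      have h6 : a ≤ 1 / 3 := by linarith
      have h7 : (a - 1 / 9) ^ 2 ≤ 0 := by
        by_contra hcon
        push Not at hcon
        have : 0 < (a - 1 / 9) ^ 2 * (4 / 9 - a) := mul_pos hcon (by linarith)
        linarith
      have h8 : a - 1 / 9 = 0 := by
        have := le_antisymm h7 (sq_nonneg _)
        exact pow_eq_zero_iff (two_ne_zero) |>.1 this
      linarith
    refine ⟨key _ _ _ (sq_nonneg x) (sq_nonneg y) (sq_nonneg z) hsum h9,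
      key _ _ _ (sq_nonneg y) (sq_nonneg x) (sq_nonneg z) (by linarith) (by linarith),
      key _ _ _ (sq_nonneg z) (sq_nonneg x) (sq_nonneg y) (by linarith) (by linarith), h8⟩

/-- the five points -/
def pts : Set (Fin 3 → ℝ) :=
  {![0, 0, 0], ![1 / 3, 1 / 3, 1 / 3], ![1 / 3, -1 / 3, -1 / 3], ![-1 / 3, 1 / 3, -1 / 3],
    ![-1 / 3, -1 / 3, 1 / 3]}

lemma third_of_sq {x : ℝ} (h : x ^ 2 = 1 / 9) : x = 1 / 3 ∨ x = -1 / 3 := by
  have : (x - 1 / 3) * (x + 1 / 3) = 0 := by nlinarith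
  rcases mul_eq_zero.1 this with h1 | h1
  · left; linarith
  · right; linarith

lemma spectrum_eq : cliffordSpectrum AA pauli = pts := by
  ext v
  have hv : v = ![v 0, v 1, v 2] := by
    ext i; fin_cases i <;> rfl
  rw [hv, mem_iff]
  constructor
  · intro h
    rcases real_eq h with ⟨h1, h2, h3⟩ | ⟨h1, h2, h3, h4⟩
    · rw [h1, h2, h3]; unfold pts; simp
    · rcases third_of_sq h1 with a | a <;> rcases third_of_sq h2 with b | b <;>
        rcases third_of_sq h3 with c | c <;> rw [a, b, c] at h4 ⊢ <;>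
        first
          | (unfold pts; simp; done)
          | (exfalso; norm_num at h4)
  · intro h
    unfold pts at h
    simp only [Set.mem_insert_iff, Set.mem_singleton_iff] at h
    rcases h with h | h | h | h | h <;>
      (have h0 := congrFun h 0
       have h1 := congrFun h 1
       have h2 := congrFun h 2
       simp only [Matrix.cons_val_zero, Matrix.cons_val_one, Matrix.cons_val] at h0 h1 h2
       rw [h0, h1, h2]
       norm_num)

/-- the five points as a finite set -/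
def ptf : Fin 5 → (Fin 3 → ℝ) :=
  ![![0, 0, 0], ![1 / 3, 1 / 3, 1 / 3], ![1 / 3, -1 / 3, -1 / 3], ![-1 / 3, 1 / 3, -1 / 3],
    ![-1 / 3, -1 / 3, 1 / 3]]

lemma ptf_inj : Function.Injective ptf := by
  intro i j h
  have h0 := congrFun h 0
  have h1 := congrFun h 1
  have h2 := congrFun h 2
  fin_cases i <;> fin_cases j <;>
    first
      | rfl
      | (exfalso; simp [ptf] at h0 h1 h2; done)
      | (exfalso; simp [ptf] at h0; norm_num at h0; done)
      | (exfalso; simp [ptf] at h1; norm_num at h1; done)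

lemma pts_eq : pts = Set.range ptf := by
  ext v
  unfold pts ptf
  simp only [Set.mem_insert_iff, Set.mem_singleton_iff, Set.mem_range]
  constructor
  · rintro (h | h | h | h | h)
    · exact ⟨0, h.symm⟩
    · exact ⟨1, h.symm⟩
    · exact ⟨2, h.symm⟩
    · exact ⟨3, h.symm⟩
    · exact ⟨4, h.symm⟩
  · rintro ⟨i, hi⟩
    fin_cases i
    · exact Or.inl hi.symm
    · exact Or.inr (Or.inl hi.symm)
    · exact Or.inr (Or.inr (Or.inl hi.symm))
    · exact Or.inr (Or.inr (Or.inr (Or.inl hi.symm)))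
    · exact Or.inr (Or.inr (Or.inr (Or.inr hi.symm)))

/-- There are three Hermitian `3 × 3` matrices whose Clifford spectrum (with respect to an
irreducible representation of the Clifford relations) is finite and has exactly five elements. -/
theorem result :
    ∃ (A : Fin 3 → Matrix (Fin 3) (Fin 3) ℂ) (γ : Fin 3 → Matrix (Fin 2) (Fin 2) ℂ),
      (∀ j, (A j).IsHermitian) ∧ IsCliffordRep γ ∧ (cliffordSpectrum A γ).Finite ∧
      (cliffordSpectrum A γ).ncard = 5 := by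
  refine ⟨AA, pauli, AA_herm, pauli_rep, ?_, ?_⟩
  · rw [spectrum_eq, pts_eq]
    exact Set.finite_range _
  · rw [spectrum_eq, pts_eq, ← Set.image_univ, Set.ncard_image_of_injective _ ptf_inj,
      Set.ncard_univ]
    simp

end

end Pool.Agent.Results.MP_fa5fea_an.FivePoints
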